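import Pool.Agent.Q105.CC.Main

/-!
# Baum–Connes with commutative coefficients: a local principle, a countable sum theorem, and spaces with
countably many orbits

Let a group `G` act on a locally compact Hausdorff space `X`.  The assembly maps for the invariant locally
closed subsets `Z` of `X` (which are locally compact `G`-spaces) form a transformation `α : H → E` of
theories, `H n (Z) = KK_G(S, Z)` and `E n (Z) = K_n(C_0(Z) ⋊_r G)`, with exact sequences for relatively open
invariant subsets (if `G` is exact, as connected Lie groups are) and continuity for directed unions.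
-/

set_option autoImplicit false

namespace Pool.Agent.Results.MP_aa9b81_an.CountablyManyOrbits

open Pool.Agent.Q105.CC

/-- (1) If every nonempty closed invariant subset `B` of `X` contains a nonempty relatively open invariant
subset `B ∩ W` such that `α` is bijective for all invariant locally closed subsets of `B ∩ W`, then `α` is
bijective for all invariant locally closed subsets of `X`. -/
def LocalPrinciple {G X : Type} [Group G] [TopologicalSpace X] [MulAction G X] {H E : Theory G X}
    (α : Trans H E) : Prop :=
  (∀ B : Set X, IsClosed B → (∀ (g : G), ∀ x ∈ B, g • x ∈ B) → B.Nonempty →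
    ∃ W : Set X, IsOpen W ∧ (∀ (g : G), ∀ x ∈ W, g • x ∈ W) ∧ (B ∩ W).Nonempty ∧
      ∀ Z : LCI G X, Z.S ⊆ B ∩ W → Iso α Z) → ∀ Z : LCI G X, Iso α Z

/-- (2) If `X` is the union of countably many closed subsets `F n` such that `α` is bijective for all
invariant locally closed subsets `Z` of `X` contained in the saturation of one of the `F n`, then `α` is
bijective for all invariant locally closed subsets of `X`. -/
def CountableSum {G X : Type} [Group G] [TopologicalSpace X] [MulAction G X] {H E : Theory G X}
    (α : Trans H E) : Prop :=
  ∀ F : ℕ → Set X, (∀ n, IsClosed (F n)) → (∀ x, ∃ n, x ∈ F n) →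
    (∀ (n : ℕ) (Z : LCI G X), (∀ x ∈ Z.S, ∃ (g : G), ∃ y ∈ F n, x = g • y) → Iso α Z) →
      ∀ Z : LCI G X, Iso α Z

/-- (3) If `X` has countably many orbits and `α` is bijective for all orbits which are locally closed in `X`,
then `α` is bijective for all invariant locally closed subsets of `X`, in particular for `X`. -/
def CountablyMany {G X : Type} [Group G] [TopologicalSpace X] [MulAction G X] {H E : Theory G X}
    (α : Trans H E) : Prop :=
  ∀ s : Set X, s.Countable → (∀ x : X, ∃ y ∈ s, ∃ g : G, x = g • y) →
    (∀ (Z : LCI G X) (x : X), Z.S = MulAction.orbit G x → Iso α Z) → ∀ Z : LCI G X, Iso α Z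

/-- The three statements, for a σ-compact group `G` that acts continuously on a locally compact Hausdorff
space `X`. -/
theorem result {G X : Type} [Group G] [TopologicalSpace G] [SigmaCompactSpace G]
    [TopologicalSpace X] [T2Space X] [LocallyCompactSpace X] [MulAction G X] [ContinuousSMul G X]
    {H E : Theory G X} (α : Trans H E) (hH : ExactSeq H) (hE : ExactSeq E) (cH : Continuity H)
    (cE : Continuity E) : LocalPrinciple α ∧ CountableSum α ∧ CountablyMany α := by
  refine ⟨fun h Z => iso_all hH hE cH cE h Z, fun F hF hFX hg Z => ?_, fun s hs hsX ho Z => ?_⟩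
  · exact iso_sum hH hE cH cE hF hFX hg Z
  · exact iso_orbits hH hE cH cE hs hsX ho Z

end Pool.Agent.Results.MP_aa9b81_an.CountablyManyOrbits
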